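import Pool.Agent.Run7.h888.SD.WAL

/-! Piece BETW of project SD (helper47, MP_1906c1_mp): the transform of a law with small support. -/

set_option autoImplicit false

namespace Pool.Agent.Run7.h888.SD

open MeasureTheory Filter Pool.Agent.W792.LL Pool.Agent.W792.WA Pool.Agent.N659.HB
open Pool.Agent.Run7.h47.SD
open ProbabilityTheory UnitAddTorus
open scoped Topology ENNReal

noncomputable section

variable {d : ℕ}

theorem t_BETW : S_BETW := by
  intro d t u κ r ρ _ htu hu hr hrκ hρ
  have hκ : 0 ≤ κ := wn_nonneg hu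
  set q : ℝ := r * κ with hq
  have hq0 : 0 ≤ q := mul_nonneg hr hκ
  have hq1 : q < 1 := by linarith
  have hae : ∀ᵐ a ∂ρ, |a| ≤ r := by
    have h1 : ∀ᵐ a ∂ρ, a ∈ Set.Icc (-r) r := by
      rw [ae_iff]
      exact hρ
    filter_upwards [h1] with a ha
    exact abs_le.mpr ha
  -- moments
  set mo : ℕ → ℂ := fun n => ∫ a, (a : ℂ) ^ (n + 1) ∂ρ with hmo
  have hmo1 : ∀ n, ‖mo n‖ ≤ r ^ (n + 1) := by
    intro n
    have h1 := norm_integral_le_of_norm_le_const (μ := ρ) (f := fun a : ℝ => (a : ℂ) ^ (n + 1))
      (C := r ^ (n + 1)) (by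
        filter_upwards [hae] with a ha
        rw [norm_pow, Complex.norm_real, Real.norm_eq_abs]
        exact pow_le_pow_left₀ (abs_nonneg _) ha _)
    simpa using h1
  -- the terms
  set f : ℕ → C(UnitAddTorus (Fin d), ℂ) := fun n => (-((-1) ^ n * mo n)) • u ^ n with hf
  have hfw : ∀ n, Wn (f n) (r * q ^ n) := by
    intro n
    have h1 := wn_smul (u ^ n) (-((-1) ^ n * mo n)) _ (wn_pow hu n)
    refine wn_mono h1 ?_
    rw [norm_neg, norm_mul, norm_pow, norm_neg, norm_one, one_pow, one_mul, hq, mul_pow]
    calc ‖mo n‖ * κ ^ n ≤ r ^ (n + 1) * κ ^ n :=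
          mul_le_mul_of_nonneg_right (hmo1 n) (pow_nonneg hκ n)
      _ = r * (r ^ n * κ ^ n) := by ring
  have hgs : Summable fun n : ℕ => r * q ^ n := (summable_geometric_of_lt_one hq0 hq1).mul_left r
  have hfs : Summable f := Summable.of_norm_bounded hgs fun n => wn_norm (hfw n)
  set e' : C(UnitAddTorus (Fin d), ℂ) := ∑' n, f n with he'
  have he'w : Wn e' (r / (1 - q)) := by
    refine wn_closed (fun N => ∑ n ∈ Finset.range N, f n) e' _ (fun N => ?_)
      hfs.hasSum.tendsto_sum_nat
    refine wn_mono (wn_sum f _ hfw N) ?_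
    have h1 : HasSum (fun n : ℕ => r * q ^ n) (r * (1 - q)⁻¹) :=
      (hasSum_geometric_of_lt_one hq0 hq1).mul_left r
    rw [div_eq_mul_inv]
    exact sum_le_hasSum _ (fun n _ => mul_nonneg hr (pow_nonneg hq0 n)) h1
  have hue : Wn (u * e') (κ * (r / (1 - q))) := wn_mul _ _ _ _ hu he'w
  have hκr : κ * (r / (1 - q)) = q / (1 - q) := by
    rw [hq]
    ring
  rw [hκr] at hue
  have hq7 : q / (1 - q) < 1 := by
    rw [div_lt_one (by linarith)]
    linarith
  obtain ⟨g, hg1, hg2, -⟩ := wn_inv (u * e') _ hue hq7
  refine ⟨-(e' * g), ?_, ?_⟩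
  · have h1 := wn_mul _ _ _ _ he'w hg2
    have h2 := wn_smul (e' * g) (-1) _ h1
    have h3 : (-1 : ℂ) • (e' * g) = -(e' * g) := by
      ext k
      simp
    rw [h3, norm_neg, norm_one, one_mul] at h2
    refine wn_mono h2 ?_
    have h7 : 1 - q ≠ 0 := by linarith
    have h4 : 1 - q / (1 - q) = (1 - 2 * q) / (1 - q) := by
      field_simp
      ring
    have h5 : r / (1 - q) * (1 / (1 - q / (1 - q))) = r / (1 - 2 * q) := by
      rw [h4]
      have h6 : 1 - 2 * q ≠ 0 := by linarith
      field_simp
    rw [h5, div_le_iff₀ (by linarith)]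
    nlinarith
  · intro k
    have htk : t k * u k = 1 := by
      have := congrArg (fun w : C(UnitAddTorus (Fin d), ℂ) => w k) htu
      simpa using this
    have huk : ‖u k‖ ≤ κ := (u.norm_coe_le_norm k).trans (wn_norm hu)
    have hau : ∀ a : ℝ, |a| ≤ r → ‖(a : ℂ) * u k‖ ≤ q := by
      intro a ha
      rw [norm_mul, Complex.norm_real, Real.norm_eq_abs]
      exact mul_le_mul ha huk (norm_nonneg _) hr
    have hne : ∀ a : ℝ, |a| ≤ r → 1 + (a : ℂ) * u k ≠ 0 := by
      intro a ha h
      have h1 : (a : ℂ) * u k = -1 := by linear_combination h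
      have h2 := hau a ha
      rw [h1, norm_neg, norm_one] at h2
      linarith
    -- pointwise value of e'
    have hek : e' k = -∫ a, (a : ℂ) / (1 + (a : ℂ) * u k) ∂ρ := by
      have h1 : HasSum (fun n => f n k) (e' k) := by
        have := (ContinuousMap.evalCLM ℂ k).hasSum hfs.hasSum
        exact this
      set F : ℕ → ℝ → ℂ := fun n a => -((a : ℂ) * (-((a : ℂ) * u k)) ^ n) with hF
      have hFint : ∀ n, Integrable (F n) ρ := by
        intro n
        have hc : Continuous (F n) := by
          rw [hF]
          fun_prop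
        refine Integrable.of_bound hc.aestronglyMeasurable (r * q ^ n) ?_
        filter_upwards [hae] with a ha
        rw [hF]
        simp only
        rw [norm_neg, norm_mul, norm_pow, norm_neg, Complex.norm_real, Real.norm_eq_abs]
        exact mul_le_mul ha (pow_le_pow_left₀ (norm_nonneg _) (hau a ha) n)
          (pow_nonneg (norm_nonneg _) n) hr
      have hFsum : Summable fun n => ∫ a, ‖F n a‖ ∂ρ := by
        refine Summable.of_nonneg_of_le (fun n => integral_nonneg fun a => norm_nonneg _)
          (fun n => ?_) hgs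
        have h2 := norm_integral_le_of_norm_le_const (μ := ρ) (f := fun a => ‖F n a‖)
          (C := r * q ^ n) (by
            filter_upwards [hae] with a ha
            rw [norm_norm, hF]
            simp only
            rw [norm_neg, norm_mul, norm_pow, norm_neg, Complex.norm_real, Real.norm_eq_abs]
            exact mul_le_mul ha (pow_le_pow_left₀ (norm_nonneg _) (hau a ha) n)
              (pow_nonneg (norm_nonneg _) n) hr)
        have h3 : ‖∫ a, ‖F n a‖ ∂ρ‖ = ∫ a, ‖F n a‖ ∂ρ := by
          rw [Real.norm_eq_abs, abs_of_nonneg (integral_nonneg fun a => norm_nonneg _)]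
        rw [h3] at h2
        simpa using h2
      have h4 := hasSum_integral_of_summable_integral_norm hFint hFsum
      have h5 : ∀ n, ∫ a, F n a ∂ρ = f n k := by
        intro n
        have h6 : ∀ a : ℝ, F n a = (-((-1) ^ n * u k ^ n)) * (a : ℂ) ^ (n + 1) := by
          intro a
          rw [hF]
          simp only
          rw [neg_pow, mul_pow]
          ring
        simp_rw [h6]
        rw [integral_const_mul, hf]
        simp only [ContinuousMap.smul_apply, ContinuousMap.pow_apply, smul_eq_mul]
        ring
      have h7 : ∫ a, ∑' n, F n a ∂ρ = -∫ a, (a : ℂ) / (1 + (a : ℂ) * u k) ∂ρ := by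
        rw [← integral_neg]
        apply integral_congr_ae
        filter_upwards [hae] with a ha
        have h8 : ‖-((a : ℂ) * u k)‖ < 1 := by
          rw [norm_neg]
          exact (hau a ha).trans_lt hq1
        rw [hF]
        simp only
        rw [tsum_neg, tsum_mul_left, tsum_geometric_of_norm_lt_one h8, sub_neg_eq_add,
          div_eq_mul_inv]
      rw [h7] at h4
      have h9 : HasSum (fun n => f n k) (-∫ a, (a : ℂ) / (1 + (a : ℂ) * u k) ∂ρ) := by
        simpa only [h5] using h4
      exact h1.unique h9
    -- the transform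
    have hbet : bet ρ (t k) = u k * (1 + u k * e' k) := by
      have h1 : bet ρ (t k) = ∫ a, (u k - (u k * u k) * ((a : ℂ) / (1 + (a : ℂ) * u k))) ∂ρ := by
        unfold bet
        apply integral_congr_ae
        filter_upwards [hae] with a ha
        have h2 := hne a ha
        have h3 : u k ≠ 0 := right_ne_zero_of_mul_eq_one htk
        have h4 : t k = 1 / u k := by
          rw [eq_div_iff h3]
          exact htk
        have h5 : t k + a = (1 + (a : ℂ) * u k) / u k := by
          rw [h4]
          field_simp
        rw [h5]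
        field_simp
        ring
      have h6 : Integrable (fun a : ℝ => (a : ℂ) / (1 + (a : ℂ) * u k)) ρ := by
        have hm : Measurable fun a : ℝ => (a : ℂ) / (1 + (a : ℂ) * u k) := by fun_prop
        refine Integrable.of_bound hm.aestronglyMeasurable (r / (1 - q)) ?_
        filter_upwards [hae] with a ha
        rw [norm_div, Complex.norm_real, Real.norm_eq_abs]
        have h7 : 1 - q ≤ ‖1 + (a : ℂ) * u k‖ := by
          have h8 := norm_sub_le (1 + (a : ℂ) * u k) ((a : ℂ) * u k)
          rw [add_sub_cancel_right, norm_one] at h8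
          have h9 := hau a ha
          linarith
        exact div_le_div₀ hr ha (by linarith) h7
      rw [h1, integral_sub (integrable_const _) (h6.const_mul _), integral_const_mul, hek]
      simp
      ring
    have hgk : (1 + u k * e' k) * g k = 1 := by
      have := congrArg (fun w : C(UnitAddTorus (Fin d), ℂ) => w k) hg1
      simpa using this
    have h3 : u k ≠ 0 := right_ne_zero_of_mul_eq_one htk
    have h4 : 1 + u k * e' k ≠ 0 := left_ne_zero_of_mul_eq_one hgk
    refine ⟨?_, ?_⟩
    · rw [hbet]
      exact mul_ne_zero h3 h4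
    · rw [hbet]
      have h5 : (-(e' * g) : C(UnitAddTorus (Fin d), ℂ)) k = -(e' k * g k) := rfl
      rw [h5, div_eq_iff (mul_ne_zero h3 h4)]
      linear_combination (-1 : ℂ) * htk * (1 + u k * e' k) + (u k * e' k) * hgk

end

end Pool.Agent.Run7.h888.SD
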