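import Pool.Agent.Run7.h47.SD.Iface

/-! Piece MOMU of project SD (helper47, MP_1906c1_mp): the uniform law. -/

set_option autoImplicit false

namespace Pool.Agent.Run7.h888.SD

open MeasureTheory Filter Pool.Agent.W792.LL Pool.Agent.W792.WA Pool.Agent.N659.HB
open Pool.Agent.Run7.h47.SD
open ProbabilityTheory
open scoped Topology ENNReal

noncomputable section

lemma sub_I_ne (v : ℝ) : (v : ℂ) - Complex.I ≠ 0 := by
  intro h
  have := congrArg Complex.im h
  simp at this

lemma continuous_dd : Continuous dd := by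
  unfold dd
  exact continuous_const.div (Complex.continuous_ofReal.sub continuous_const) sub_I_ne

lemma mean_eq (sg : ℝ) (g : ℝ → ℂ) (hg : Continuous g) :
    ∫ v, g v ∂(((1 / 2 : ℝ≥0∞) • (volume.restrict (Set.Icc (-1 : ℝ) 1))).map fun x => sg * x)
      = (1 / 2 : ℂ) * ∫ x in (-1 : ℝ)..1, g (sg * x) := by
  rw [integral_map (by fun_prop) hg.aestronglyMeasurable, integral_smul_measure,
    integral_Icc_eq_integral_Ioc, ← intervalIntegral.integral_of_le (by norm_num)]
  rw [Complex.real_smul]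
  congr 1
  simp

lemma norm_sub_I_ge (v : ℝ) : |v| ≤ ‖(v : ℂ) - Complex.I‖ := by
  have h1 := Complex.abs_re_le_norm ((v : ℂ) - Complex.I)
  simpa using h1

lemma mom_high (sg : ℝ) (hsg : 0 < sg) (n : ℕ) :
    ‖(1 / 2 : ℂ) * ∫ x in (-1 : ℝ)..1, dd (sg * x) ^ (n + 2)‖ ≤ 1 / sg ^ (n + 2) := by
  have hsgc : (sg : ℂ) ≠ 0 := by exact_mod_cast hsg.ne'
  have hn : ((n : ℂ) + 1) ≠ 0 := by exact_mod_cast Nat.succ_ne_zero n
  set F : ℝ → ℂ := fun x => -(1 / (((n : ℂ) + 1) * sg)) * ((((sg * x : ℝ) : ℂ) - Complex.I) ^ (n + 1))⁻¹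
    with hF
  have hder : ∀ x ∈ Set.uIcc (-1 : ℝ) 1, HasDerivAt F (dd (sg * x) ^ (n + 2)) x := by
    intro x _
    have hne := sub_I_ne (sg * x)
    have h0 : HasDerivAt (fun x : ℝ => (((sg * x : ℝ) : ℂ) - Complex.I)) (sg : ℂ) x := by
      have h1 : HasDerivAt (fun x : ℝ => sg * x) (sg * 1) x := (hasDerivAt_id x).const_mul sg
      have h2 := h1.ofReal_comp
      have h3 := h2.sub_const Complex.I
      simpa using h3
    have h1 := (h0.fun_pow (n + 1)).fun_inv (pow_ne_zero _ hne)
    have h2 := h1.const_mul (-(1 / (((n : ℂ) + 1) * sg)))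
    refine h2.congr_deriv ?_
    unfold dd
    rw [div_pow, one_pow, Nat.add_sub_cancel]
    push_cast at hne ⊢
    field_simp
    ring
  have hcont : Continuous fun x : ℝ => dd (sg * x) ^ (n + 2) :=
    (continuous_dd.comp (continuous_const.mul continuous_id)).pow _
  rw [intervalIntegral.integral_eq_sub_of_hasDerivAt hder (hcont.intervalIntegrable _ _)]
  have hFb : ∀ x : ℝ, |x| = 1 → ‖F x‖ ≤ 1 / sg ^ (n + 2) := by
    intro x hx
    rw [hF]
    simp only
    rw [norm_mul, norm_neg, norm_div, norm_one, norm_mul, norm_inv, norm_pow, Complex.norm_real,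
      Real.norm_eq_abs, abs_of_pos hsg]
    have h1 : sg ≤ ‖((sg * x : ℝ) : ℂ) - Complex.I‖ := by
      have := norm_sub_I_ge (sg * x)
      rwa [abs_mul, hx, mul_one, abs_of_pos hsg] at this
    have h2 : 1 ≤ ‖(n : ℂ) + 1‖ := by
      have : ((n : ℂ) + 1) = ((n + 1 : ℕ) : ℂ) := by push_cast; ring
      rw [this, Complex.norm_natCast]
      exact_mod_cast Nat.succ_le_succ (Nat.zero_le n)
    have h3 : sg ^ (n + 1) ≤ ‖((sg * x : ℝ) : ℂ) - Complex.I‖ ^ (n + 1) :=
      pow_le_pow_left₀ hsg.le h1 _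
    rw [← one_div, div_mul_div_comm, one_mul]
    apply one_div_le_one_div_of_le (by positivity)
    calc sg ^ (n + 2) = (1 * sg) * sg ^ (n + 1) := by ring
      _ ≤ (‖(n : ℂ) + 1‖ * sg) * ‖((sg * x : ℝ) : ℂ) - Complex.I‖ ^ (n + 1) :=
          mul_le_mul (mul_le_mul_of_nonneg_right h2 hsg.le) h3 (by positivity) (by positivity)
  have h1 := hFb 1 (by norm_num)
  have h2 := hFb (-1) (by norm_num)
  rw [norm_mul]
  have h3 : ‖(1 / 2 : ℂ)‖ = 1 / 2 := by norm_num
  rw [h3]
  have h4 := norm_sub_le (F 1) (F (-1))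
  linarith

lemma mom_one (sg : ℝ) (hsg : 0 < sg) :
    (1 / 2 : ℂ) * ∫ x in (-1 : ℝ)..1, dd (sg * x) = Complex.I * ((Real.arctan sg / sg : ℝ) : ℂ) := by
  have hc : Continuous fun x : ℝ => dd (sg * x) :=
    continuous_dd.comp (continuous_const.mul continuous_id)
  have hc2 : Continuous fun x : ℝ => dd (sg * -x) :=
    continuous_dd.comp (continuous_const.mul continuous_neg)
  have h1 : ∫ x in (-1 : ℝ)..1, dd (sg * -x) = ∫ x in (-1 : ℝ)..1, dd (sg * x) := by
    have := intervalIntegral.integral_comp_neg (a := -1) (b := 1) (fun x : ℝ => dd (sg * x))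
    simpa using this
  have h2 : (∫ x in (-1 : ℝ)..1, dd (sg * x)) + ∫ x in (-1 : ℝ)..1, dd (sg * -x)
      = ∫ x in (-1 : ℝ)..1, (2 * Complex.I) * (((1 / (1 + (sg * x) ^ 2) : ℝ)) : ℂ) := by
    rw [← intervalIntegral.integral_add (hc.intervalIntegrable _ _) (hc2.intervalIntegrable _ _)]
    apply intervalIntegral.integral_congr
    intro x _
    simp only
    unfold dd
    have e1 := sub_I_ne (sg * x)
    have e2 := sub_I_ne (sg * -x)
    have e3 : (1 + ((sg * x : ℝ) : ℂ) ^ 2) ≠ 0 := by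
      have : (1 + (sg * x) ^ 2 : ℝ) ≠ 0 := by positivity
      exact_mod_cast this
    have e4 : (((sg * x : ℝ) : ℂ) - Complex.I) * (((sg * -x : ℝ) : ℂ) - Complex.I)
        = -(1 + ((sg * x : ℝ) : ℂ) ^ 2) := by
      push_cast
      linear_combination Complex.I_sq
    rw [div_add_div _ _ e1 e2, e4]
    push_cast
    push_cast at e3
    field_simp
    ring
  have h3 : ∫ x in (-1 : ℝ)..1, (1 / (1 + (sg * x) ^ 2) : ℝ) = 2 * Real.arctan sg / sg := by
    have h4 := intervalIntegral.integral_comp_mul_left (a := -1) (b := 1)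
      (fun y : ℝ => 1 / (1 + y ^ 2)) hsg.ne'
    rw [h4, integral_one_div_one_add_sq, mul_one, mul_neg, mul_one, Real.arctan_neg, smul_eq_mul]
    field_simp
    ring
  rw [intervalIntegral.integral_const_mul, intervalIntegral.integral_ofReal, h3, h1] at h2
  push_cast at h2 ⊢
  linear_combination (1 / 4 : ℂ) * h2

theorem t_MOMU : S_MOMU := by
  refine ⟨2, 4, by norm_num, by norm_num, ?_⟩
  intro sg hsg
  have hsg0 : 0 < sg := by linarith
  have hmean : ∫ v, dd v ∂(((1 / 2 : ℝ≥0∞) • (volume.restrict (Set.Icc (-1 : ℝ) 1))).map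
      fun x => sg * x) = Complex.I * ((Real.arctan sg / sg : ℝ) : ℂ) := by
    rw [mean_eq sg dd continuous_dd, mom_one sg hsg0]
  have hat0 : 0 ≤ Real.arctan sg := Real.arctan_nonneg.mpr hsg0.le
  refine ⟨by positivity, by norm_num, ?_, ?_⟩
  · intro m hm
    rcases Nat.lt_or_ge m 2 with h | h
    · have hm1 : m = 1 := by omega
      subst hm1
      simp only [pow_one]
      rw [hmean, norm_mul, Complex.norm_I, one_mul, Complex.norm_real, Real.norm_eq_abs,
        abs_of_nonneg (by positivity)]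
      apply div_le_div_of_nonneg_right _ hsg0.le
      have h1 := Real.arctan_lt_pi_div_two sg
      have h2 := Real.pi_le_four
      linarith
    · obtain ⟨n, rfl⟩ := Nat.exists_eq_add_of_le' h
      rw [mean_eq sg (fun v => dd v ^ (n + 2)) (continuous_dd.pow _)]
      refine (mom_high sg hsg0 n).trans ?_
      rw [div_pow]
      apply div_le_div_of_nonneg_right _ (by positivity)
      exact one_le_pow₀ (by norm_num)
  · rw [hmean]
    have h1 : (Complex.I * ((Real.arctan sg / sg : ℝ) : ℂ)).im = Real.arctan sg / sg := by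
      rw [Complex.I_mul_im, Complex.ofReal_re]
    rw [h1, div_div, div_le_div_iff₀ (by positivity) hsg0]
    have h2 : Real.arctan 1 ≤ Real.arctan sg := Real.arctan_mono hsg
    rw [Real.arctan_one] at h2
    have h3 := Real.pi_gt_three
    nlinarith

end

end Pool.Agent.Run7.h888.SD
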