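import Pool.Agent.Run7.h888.SD.WAL

/-! Piece ZCL of project SD (helper47, MP_1906c1_mp): the invariant set is closed. -/

set_option autoImplicit false

namespace Pool.Agent.Run7.h888.SD

open MeasureTheory Filter Pool.Agent.W792.LL Pool.Agent.W792.WA Pool.Agent.N659.HB
open Pool.Agent.Run7.h47.SD
open ProbabilityTheory UnitAddTorus
open scoped Topology ENNReal

noncomputable section

variable {d : ℕ}

lemma cay_norm {x : ℂ} {η M : ℝ} (hη : 0 < η) (hx : x.im ≤ -η) (hM : ‖x - Complex.I‖ ≤ M) :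
    ‖cayx x 0‖ ≤ 1 - 2 * η / M ^ 2 := by
  have h1 : ‖x + Complex.I‖ ^ 2 = ‖x - Complex.I‖ ^ 2 + 4 * x.im := by
    rw [← Complex.normSq_eq_norm_sq, ← Complex.normSq_eq_norm_sq, Complex.normSq_apply,
      Complex.normSq_apply]
    simp
    ring
  have h2 : 1 ≤ ‖x - Complex.I‖ := by
    have h3 := Complex.abs_im_le_norm (x - Complex.I)
    have h4 : (x - Complex.I).im = x.im - 1 := by simp
    rw [h4, abs_of_nonpos (by linarith)] at h3
    linarith
  have hM1 : 1 ≤ M := h2.trans hM
  have h3 : cayx x 0 = (x + Complex.I) / (x - Complex.I) := by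
    unfold cayx
    simp
  rw [h3, norm_div, div_le_iff₀ (by linarith)]
  have h4 : ‖x - Complex.I‖ ^ 2 ≤ M ^ 2 := pow_le_pow_left₀ (norm_nonneg _) hM 2
  have h5 : 2 * η / M ^ 2 * ‖x - Complex.I‖ ^ 2 ≤ 2 * η := by
    rw [div_mul_eq_mul_div, div_le_iff₀ (by positivity)]
    nlinarith
  have h6 : 2 * η / M ^ 2 ≤ 1 := by
    by_contra hcon
    push Not at hcon
    have h7 := norm_nonneg (x + Complex.I)
    have h8 : ‖x + Complex.I‖ ^ 2 ≤ ‖x - Complex.I‖ ^ 2 - 4 * η := by rw [h1]; linarith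
    have h9 : 0 ≤ ‖x - Complex.I‖ ^ 2 - 4 * η := (sq_nonneg _).trans h8
    have h10 : ‖x - Complex.I‖ ^ 2 < 2 * η := by
      have : 1 * ‖x - Complex.I‖ ^ 2 < 2 * η / M ^ 2 * ‖x - Complex.I‖ ^ 2 :=
        mul_lt_mul_of_pos_right hcon (by positivity)
      linarith
    linarith
  have h7 : ‖x + Complex.I‖ ^ 2 ≤ ((1 - 2 * η / M ^ 2) * ‖x - Complex.I‖) ^ 2 := by
    rw [h1, mul_pow]
    have h8 : 0 ≤ (2 * η / M ^ 2) ^ 2 * ‖x - Complex.I‖ ^ 2 := by positivity
    nlinarith
  exact (pow_le_pow_iff_left₀ (norm_nonneg _) (mul_nonneg (by linarith) (norm_nonneg _))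
    two_ne_zero).1 h7

lemma cay_inv {x : ℂ} (hx : x.im < 0) :
    cayx x 0 ≠ 1 ∧ x = Complex.I * (cayx x 0 + 1) / (cayx x 0 - 1) := by
  have h0 : x - Complex.I ≠ 0 := by
    intro h
    have := congrArg Complex.im h
    simp at this
    linarith
  have h1 : cayx x 0 = (x + Complex.I) / (x - Complex.I) := by
    unfold cayx
    simp
  have h2 : cayx x 0 - 1 = 2 * Complex.I / (x - Complex.I) := by
    rw [h1]
    field_simp
    ring
  have h3 : cayx x 0 - 1 ≠ 0 := by
    rw [h2]
    exact div_ne_zero (mul_ne_zero two_ne_zero Complex.I_ne_zero) h0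
  refine ⟨sub_ne_zero.mp h3, ?_⟩
  rw [eq_div_iff h3, h2, h1]
  field_simp
  ring

theorem t_ZCL : S_ZCL := by
  intro d w₀ η hη hw
  have him : ∀ S : C(UnitAddTorus (Fin d), ℂ), Wn (S - ct d w₀) η → ∀ k, (S k).im ≤ -η := by
    intro S hS k
    have h1 := ((S - ct d w₀).norm_coe_le_norm k).trans (wn_norm hS)
    have h2 : (S - ct d w₀) k = S k - w₀ := rfl
    rw [h2] at h1
    have h3 := (Complex.abs_im_le_norm (S k - w₀)).trans h1
    rw [Complex.sub_im] at h3
    have h4 := (abs_le.mp h3).2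
    linarith
  set M : ℝ := ‖w₀‖ + η + 1 with hM
  have hM0 : 0 < M := by positivity
  have hSM : ∀ S : C(UnitAddTorus (Fin d), ℂ), Wn (S - ct d w₀) η → ∀ k, ‖S k - Complex.I‖ ≤ M := by
    intro S hS k
    have h1 := ((S - ct d w₀).norm_coe_le_norm k).trans (wn_norm hS)
    have h2 : (S - ct d w₀) k = S k - w₀ := rfl
    rw [h2] at h1
    have h3 : S k - Complex.I = (S k - w₀) + w₀ - Complex.I := by ring
    rw [h3]
    refine (norm_sub_le _ _).trans ?_
    rw [Complex.norm_I]
    have h4 := norm_add_le (S k - w₀) w₀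
    linarith
  set g : ℝ := 2 * η / M ^ 2 with hg
  have hg0 : 0 < g := by positivity
  have hbound : ∀ s ∈ ZW d w₀ η, ∀ k, ‖s k‖ ≤ 1 - g := by
    rintro s ⟨S, hS, hsS⟩ k
    rw [hsS k]
    exact cay_norm hη (him S hS k) (hSM S hS k)
  refine ⟨?_, ?_, him, g, hg0, ?_⟩
  · apply IsSeqClosed.isClosed
    intro sn s hsn hlim
    have hk : ∀ k, Tendsto (fun n => sn n k) atTop (𝓝 (s k)) := by
      intro k
      exact ((continuous_eval_const (F := C(UnitAddTorus (Fin d), ℂ)) k).tendsto s).comp hlim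
    have hsk : ∀ k, ‖s k‖ ≤ 1 - g := fun k =>
      le_of_tendsto' (hk k).norm fun n => hbound (sn n) (hsn n) k
    have hne : ∀ z : ℂ, ‖z‖ ≤ 1 - g → g ≤ ‖z - 1‖ := by
      intro z hz
      have h1 := norm_sub_norm_le (1 : ℂ) z
      rw [norm_one, norm_sub_rev] at h1
      linarith
    have hsk1 : ∀ k, s k - 1 ≠ 0 := by
      intro k h
      have := hne (s k) (hsk k)
      rw [h, norm_zero] at this
      linarith
    choose Sn hSn hSn2 using hsn
    set S : C(UnitAddTorus (Fin d), ℂ) := ⟨fun k => Complex.I * (s k + 1) / (s k - 1), by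
      have h1 := s.continuous
      exact (continuous_const.mul (h1.add continuous_const)).div (h1.sub continuous_const) hsk1⟩
      with hSdef
    have hSk : ∀ k, S k = Complex.I * (s k + 1) / (s k - 1) := fun k => rfl
    have hdiff : ∀ n k, ‖Sn n k - S k‖ ≤ 2 / g ^ 2 * ‖sn n - s‖ := by
      intro n k
      have h1 := (cay_inv (lt_of_le_of_lt (him _ (hSn n) k) (by linarith))).2
      rw [← hSn2 n k] at h1
      have h2 : sn n k - 1 ≠ 0 := by
        intro h
        have := hne (sn n k) (hbound (sn n) ⟨Sn n, hSn n, hSn2 n⟩ k)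
        rw [h, norm_zero] at this
        linarith
      have h3 := hsk1 k
      have h4 : Sn n k - S k = Complex.I * (-2) * (sn n k - s k) / ((sn n k - 1) * (s k - 1)) := by
        rw [h1, hSk]
        field_simp
        ring
      rw [h4, norm_div, norm_mul, norm_mul, norm_mul, Complex.norm_I, norm_neg]
      have h5 := hne (sn n k) (hbound (sn n) ⟨Sn n, hSn n, hSn2 n⟩ k)
      have h6 := hne (s k) (hsk k)
      have h7 : ‖sn n k - s k‖ ≤ ‖sn n - s‖ := (sn n - s).norm_coe_le_norm k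
      have h8 : ‖(2 : ℂ)‖ = 2 := by simp
      rw [h8, one_mul, div_mul_eq_mul_div]
      apply div_le_div₀ (by positivity) _ (by positivity)
      · rw [sq]
        exact mul_le_mul h5 h6 hg0.le (norm_nonneg _)
      · exact mul_le_mul_of_nonneg_left h7 (by norm_num)
    have hSlim : Tendsto (fun n => Sn n - ct d w₀) atTop (𝓝 (S - ct d w₀)) := by
      apply Tendsto.sub_const
      rw [tendsto_iff_norm_sub_tendsto_zero]
      have h1 : Tendsto (fun n => 2 / g ^ 2 * ‖sn n - s‖) atTop (𝓝 0) := by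
        have := (tendsto_iff_norm_sub_tendsto_zero.mp hlim).const_mul (2 / g ^ 2)
        simpa using this
      refine squeeze_zero (fun n => norm_nonneg _) (fun n => ?_) h1
      rw [ContinuousMap.norm_le _ (by positivity)]
      intro k
      exact hdiff n k
    refine ⟨S, wn_closed _ _ _ hSn hSlim, fun k => ?_⟩
    have h3 := hsk1 k
    unfold cayx
    rw [hSk]
    have h4 : Complex.I * (s k + 1) / (s k - 1) + ((0 : ℝ) : ℂ) + Complex.I
        = 2 * Complex.I * s k / (s k - 1) := by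
      push_cast
      field_simp
      ring
    have h5 : Complex.I * (s k + 1) / (s k - 1) + ((0 : ℝ) : ℂ) - Complex.I
        = 2 * Complex.I / (s k - 1) := by
      push_cast
      field_simp
      ring
    rw [h4, h5]
    field_simp
  · refine ⟨ct d (cayx w₀ 0), ct d w₀, ?_, fun k => rfl⟩
    rw [sub_self]
    exact wn_mono wn_zero hη.le
  · intro s hs
    rw [ContinuousMap.norm_le_of_nonempty]
    exact hbound s hs

end

end Pool.Agent.Run7.h888.SD
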