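import Pool.Agent.Run7.h47.SD.Iface

/-! Piece WAL of project SD (helper47, MP_1906c1_mp): the Wiener algebra. -/

set_option autoImplicit false

namespace Pool.Agent.Run7.h888.SD

open MeasureTheory Filter Pool.Agent.W792.LL Pool.Agent.W792.WA Pool.Agent.N659.HB
open Pool.Agent.Run7.h47.SD
open ProbabilityTheory UnitAddTorus
open scoped Topology ENNReal

noncomputable section

/-- the normalised measure, as in Mathlib -/
local instance : MeasureSpace UnitAddCircle := ⟨AddCircle.haarAddCircle⟩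

local instance : Measure.IsAddHaarMeasure (volume : Measure UnitAddCircle) :=
  inferInstanceAs (Measure.IsAddHaarMeasure AddCircle.haarAddCircle)

local instance : IsProbabilityMeasure (volume : Measure UnitAddCircle) :=
  inferInstanceAs (IsProbabilityMeasure AddCircle.haarAddCircle)

variable {d : ℕ}

lemma mc_int (f : C(UnitAddTorus (Fin d), ℂ)) (x : Fin d → ℤ) :
    Integrable (fun t => mFourier (-x) t • f t) (volume : Measure (UnitAddTorus (Fin d))) := by
  have hc : Continuous fun t : UnitAddTorus (Fin d) => mFourier (-x) t • f t := by fun_prop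
  exact hc.integrable_of_hasCompactSupport (HasCompactSupport.of_compactSpace _)

/-- the Fourier coefficient as a continuous linear functional -/
def Lx (x : Fin d → ℤ) : C(UnitAddTorus (Fin d), ℂ) →L[ℂ] ℂ :=
  LinearMap.mkContinuous
    { toFun := fun f => mFourierCoeff f x
      map_add' := fun f g => by
        unfold mFourierCoeff
        rw [← integral_add (mc_int f x) (mc_int g x)]
        congr 1
        ext t
        simp [mul_add]
      map_smul' := fun c f => by
        unfold mFourierCoeff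
        simp only [RingHom.id_apply, smul_eq_mul]
        rw [← integral_const_mul]
        congr 1
        ext t
        simp only [ContinuousMap.coe_smul, Pi.smul_apply, smul_eq_mul]
        ring } 1 (fun f => by
      show ‖mFourierCoeff f x‖ ≤ 1 * ‖f‖
      unfold mFourierCoeff
      refine (norm_integral_le_of_norm_le_const (C := ‖f‖) (Eventually.of_forall fun t => ?_)).trans ?_
      · rw [norm_smul]
        have h1 : ‖mFourier (-x) t‖ ≤ 1 := by
          have := (mFourier (-x)).norm_coe_le_norm t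
          rwa [mFourier_norm] at this
        have h2 := f.norm_coe_le_norm t
        calc ‖mFourier (-x) t‖ * ‖f t‖ ≤ 1 * ‖f‖ :=
              mul_le_mul h1 h2 (norm_nonneg _) zero_le_one
          _ = ‖f‖ := one_mul _
      · simp)

lemma Lx_apply (x : Fin d → ℤ) (f : C(UnitAddTorus (Fin d), ℂ)) : Lx x f = mFourierCoeff f x := rfl

lemma mc_fourier_mul (i x : Fin d → ℤ) (g : C(UnitAddTorus (Fin d), ℂ)) :
    mFourierCoeff (mFourier i * g : C(UnitAddTorus (Fin d), ℂ)) x = mFourierCoeff g (x - i) := by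
  unfold mFourierCoeff
  congr 1
  ext t
  have h1 : -(x - i) = -x + i := by abel
  rw [h1, mFourier_add, ContinuousMap.mul_apply, smul_eq_mul, smul_eq_mul, mul_assoc]

lemma mc_fourier_zero (x : Fin d → ℤ) (hx : x ≠ 0) :
    mFourierCoeff (mFourier (0 : Fin d → ℤ) : C(UnitAddTorus (Fin d), ℂ)) x = 0 := by
  have h1 := mFourierBasis_repr (mFourierLp (d := Fin d) 2 (0 : Fin d → ℤ)) x
  have h2 : mFourierBasis (d := Fin d) (0 : Fin d → ℤ) = mFourierLp 2 (0 : Fin d → ℤ) := by
    rw [coe_mFourierBasis]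
  rw [← h2, HilbertBasis.repr_self] at h1
  have h3 : (lp.single 2 (0 : Fin d → ℤ) (1 : ℂ) : lp (fun _ : Fin d → ℤ => ℂ) 2) x = 0 := by
    rw [lp.single_apply_ne _ _ _ hx]
  rw [h3, h2] at h1
  have h4 := mFourierCoeff_toLp (f := (mFourier (0 : Fin d → ℤ) : C(UnitAddTorus (Fin d), ℂ))) x
  rw [← h4]
  exact h1.symm

lemma mc_fourier_zero0 :
    mFourierCoeff (mFourier (0 : Fin d → ℤ) : C(UnitAddTorus (Fin d), ℂ)) 0 = 1 := by
  unfold mFourierCoeff
  rw [neg_zero, mFourier_zero]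
  simp

lemma mc_const (c : ℂ) (x : Fin d → ℤ) : mFourierCoeff (ct d c) x = if x = 0 then c else 0 := by
  have h1 : ct d c = c • (mFourier (0 : Fin d → ℤ) : C(UnitAddTorus (Fin d), ℂ)) := by
    ext t
    rw [mFourier_zero]
    simp [ct]
  rw [← Lx_apply, h1, map_smul, Lx_apply]
  by_cases hx : x = 0
  · rw [if_pos hx, hx, mc_fourier_zero0, smul_eq_mul, mul_one]
  · rw [if_neg hx, mc_fourier_zero x hx, smul_zero]

lemma wn_nonneg {f : C(UnitAddTorus (Fin d), ℂ)} {β : ℝ} (h : Wn f β) : 0 ≤ β := by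
  simpa using h ∅

lemma wn_mono {f : C(UnitAddTorus (Fin d), ℂ)} {β γ : ℝ} (h : Wn f β) (hβ : β ≤ γ) : Wn f γ :=
  fun F => (h F).trans hβ

lemma wn_single {f : C(UnitAddTorus (Fin d), ℂ)} {β : ℝ} (h : Wn f β) (x : Fin d → ℤ) :
    ‖mFourierCoeff f x‖ ≤ β := by
  simpa using h {x}

lemma wn_summable {f : C(UnitAddTorus (Fin d), ℂ)} {β : ℝ} (h : Wn f β) :
    Summable fun x => ‖mFourierCoeff f x‖ :=
  summable_of_sum_le (fun _ => norm_nonneg _) h

lemma wn_tsum_le {f : C(UnitAddTorus (Fin d), ℂ)} {β : ℝ} (h : Wn f β) :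
    ∑' x, ‖mFourierCoeff f x‖ ≤ β := (wn_summable h).tsum_le_of_sum_le h

lemma wn_const (c : ℂ) : Wn (ct d c) ‖c‖ := by
  classical
  intro F
  have h1 : ∀ x ∈ F, ‖mFourierCoeff (ct d c) x‖ = if x = 0 then ‖c‖ else 0 := by
    intro x _
    rw [mc_const]
    by_cases hx : x = 0
    · rw [if_pos hx, if_pos hx]
    · rw [if_neg hx, if_neg hx, norm_zero]
  rw [Finset.sum_congr rfl h1, Finset.sum_ite_eq']
  split_ifs
  · exact le_rfl
  · exact norm_nonneg _

lemma wn_smul (f : C(UnitAddTorus (Fin d), ℂ)) (c : ℂ) (β : ℝ) (h : Wn f β) :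
    Wn (c • f) (‖c‖ * β) := by
  intro F
  have h1 : ∀ x ∈ F, ‖mFourierCoeff (c • f : C(UnitAddTorus (Fin d), ℂ)) x‖
      = ‖c‖ * ‖mFourierCoeff f x‖ := by
    intro x _
    rw [← Lx_apply, map_smul, norm_smul, Lx_apply]
  rw [Finset.sum_congr rfl h1, ← Finset.mul_sum]
  exact mul_le_mul_of_nonneg_left (h F) (norm_nonneg _)

lemma wn_add (f g : C(UnitAddTorus (Fin d), ℂ)) (β γ : ℝ) (hf : Wn f β) (hg : Wn g γ) :
    Wn (f + g) (β + γ) := by
  intro F
  have h1 : ∀ x ∈ F, ‖mFourierCoeff (f + g : C(UnitAddTorus (Fin d), ℂ)) x‖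
      ≤ ‖mFourierCoeff f x‖ + ‖mFourierCoeff g x‖ := by
    intro x _
    rw [← Lx_apply, map_add, Lx_apply, Lx_apply]
    exact norm_add_le _ _
  refine (Finset.sum_le_sum h1).trans ?_
  rw [Finset.sum_add_distrib]
  exact add_le_add (hf F) (hg F)

lemma wn_hasSum {f : C(UnitAddTorus (Fin d), ℂ)} {β : ℝ} (h : Wn f β) :
    HasSum (fun i => mFourierCoeff f i • (mFourier i : C(UnitAddTorus (Fin d), ℂ))) f :=
  hasSum_mFourier_series_of_summable (wn_summable h).of_norm

lemma wn_mul (f g : C(UnitAddTorus (Fin d), ℂ)) (β γ : ℝ) (hf : Wn f β) (hg : Wn g γ) :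
    Wn (f * g) (β * γ) := by
  have hγ := wn_nonneg hg
  have hsum : ∀ x, HasSum (fun i => mFourierCoeff f i * mFourierCoeff g (x - i))
      (mFourierCoeff (f * g : C(UnitAddTorus (Fin d), ℂ)) x) := by
    intro x
    have h1 := (wn_hasSum hf).mul_right g
    have h2 := (Lx x).hasSum h1
    rw [Lx_apply] at h2
    have h3 : (fun i => mFourierCoeff f i * mFourierCoeff g (x - i))
        = fun i => Lx x ((mFourierCoeff f i • (mFourier i : C(UnitAddTorus (Fin d), ℂ))) * g) := by
      funext i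
      rw [smul_mul_assoc, map_smul, Lx_apply, mc_fourier_mul, smul_eq_mul]
    rw [h3]
    exact h2
  have hs : ∀ x, Summable fun i => ‖mFourierCoeff f i‖ * ‖mFourierCoeff g (x - i)‖ := fun x =>
    Summable.of_nonneg_of_le (fun i => mul_nonneg (norm_nonneg _) (norm_nonneg _))
      (fun i => mul_le_mul_of_nonneg_left (wn_single hg (x - i)) (norm_nonneg _))
      ((wn_summable hf).mul_right γ)
  intro F
  have h1 : ∀ x ∈ F, ‖mFourierCoeff (f * g : C(UnitAddTorus (Fin d), ℂ)) x‖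
      ≤ ∑' i, ‖mFourierCoeff f i‖ * ‖mFourierCoeff g (x - i)‖ := by
    intro x _
    rw [← (hsum x).tsum_eq]
    have h2 : Summable fun i => ‖mFourierCoeff f i * mFourierCoeff g (x - i)‖ := by
      simpa only [norm_mul] using hs x
    refine (norm_tsum_le_tsum_norm h2).trans (le_of_eq ?_)
    simp only [norm_mul]
  refine (Finset.sum_le_sum h1).trans ?_
  rw [← Summable.tsum_finsetSum (fun x _ => hs x)]
  have h3 : ∀ i, ∑ x ∈ F, ‖mFourierCoeff f i‖ * ‖mFourierCoeff g (x - i)‖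
      ≤ ‖mFourierCoeff f i‖ * γ := by
    intro i
    rw [← Finset.mul_sum]
    apply mul_le_mul_of_nonneg_left _ (norm_nonneg _)
    have h4 := hg (F.image fun x => x - i)
    rwa [Finset.sum_image (fun x _ y _ h => sub_left_injective h)] at h4
  have hs2 : Summable fun i => ∑ x ∈ F, ‖mFourierCoeff f i‖ * ‖mFourierCoeff g (x - i)‖ :=
    summable_sum fun x _ => hs x
  refine (hs2.tsum_le_tsum h3 ((wn_summable hf).mul_right γ)).trans ?_
  rw [tsum_mul_right]
  exact mul_le_mul_of_nonneg_right (wn_tsum_le hf) hγ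

lemma wn_norm {f : C(UnitAddTorus (Fin d), ℂ)} {β : ℝ} (h : Wn f β) : ‖f‖ ≤ β := by
  rw [← (wn_hasSum h).tsum_eq]
  have h1 : ∀ i, ‖mFourierCoeff f i • (mFourier i : C(UnitAddTorus (Fin d), ℂ))‖
      = ‖mFourierCoeff f i‖ := by
    intro i
    rw [norm_smul, mFourier_norm, mul_one]
  have h2 : Summable fun i => ‖mFourierCoeff f i • (mFourier i : C(UnitAddTorus (Fin d), ℂ))‖ := by
    simpa only [h1] using wn_summable h
  refine (norm_tsum_le_tsum_norm h2).trans ?_
  simp only [h1]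
  exact wn_tsum_le h

lemma wn_closed (f : ℕ → C(UnitAddTorus (Fin d), ℂ)) (g : C(UnitAddTorus (Fin d), ℂ)) (β : ℝ)
    (hf : ∀ n, Wn (f n) β) (hlim : Tendsto f atTop (𝓝 g)) : Wn g β := by
  intro F
  have h1 : Tendsto (fun n => ∑ x ∈ F, ‖mFourierCoeff (f n) x‖) atTop
      (𝓝 (∑ x ∈ F, ‖mFourierCoeff g x‖)) := by
    apply tendsto_finset_sum
    intro x _
    exact (((Lx x).continuous.tendsto g).comp hlim).norm
  exact le_of_tendsto' h1 fun n => hf n F

lemma wn_one : Wn (1 : C(UnitAddTorus (Fin d), ℂ)) 1 := by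
  have h1 : (1 : C(UnitAddTorus (Fin d), ℂ)) = ct d 1 := by
    ext t
    simp [ct]
  rw [h1]
  simpa using wn_const (d := d) 1

lemma wn_pow {f : C(UnitAddTorus (Fin d), ℂ)} {β : ℝ} (h : Wn f β) (n : ℕ) : Wn (f ^ n) (β ^ n) := by
  induction n with
  | zero => simpa using wn_one
  | succ n ih =>
    rw [pow_succ, pow_succ]
    exact wn_mul _ _ _ _ ih h

lemma wn_zero : Wn (0 : C(UnitAddTorus (Fin d), ℂ)) 0 := by
  have h1 : (0 : C(UnitAddTorus (Fin d), ℂ)) = ct d 0 := by
    ext t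
    simp [ct]
  rw [h1]
  simpa using wn_const (d := d) 0

lemma wn_sum (f : ℕ → C(UnitAddTorus (Fin d), ℂ)) (β : ℕ → ℝ) (h : ∀ n, Wn (f n) (β n)) (N : ℕ) :
    Wn (∑ n ∈ Finset.range N, f n) (∑ n ∈ Finset.range N, β n) := by
  induction N with
  | zero => simpa using wn_zero
  | succ N ih =>
    rw [Finset.sum_range_succ, Finset.sum_range_succ]
    exact wn_add _ _ _ _ ih (h N)

lemma wn_inv (e : C(UnitAddTorus (Fin d), ℂ)) (q : ℝ) (he : Wn e q) (hq : q < 1) :
    ∃ g : C(UnitAddTorus (Fin d), ℂ), (1 + e) * g = 1 ∧ Wn g (1 / (1 - q)) ∧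
      Wn (g - 1) (q / (1 - q)) := by
  have hq0 := wn_nonneg he
  have hne : Wn (-e) q := by
    have h1 := wn_smul e (-1) q he
    have h2 : (-1 : ℂ) • e = -e := by
      ext t
      simp
    rw [h2, norm_neg, norm_one, one_mul] at h1
    exact h1
  have hnorm : ‖-e‖ < 1 := (wn_norm hne).trans_lt hq
  have hsumm : Summable fun n : ℕ => (-e) ^ n := summable_geometric_of_norm_lt_one hnorm
  set g := ∑' n : ℕ, (-e) ^ n with hg
  have hlim : Tendsto (fun N => ∑ n ∈ Finset.range N, (-e) ^ n) atTop (𝓝 g) :=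
    hsumm.hasSum.tendsto_sum_nat
  have hgeo : ∀ N, ∑ n ∈ Finset.range N, q ^ n ≤ 1 / (1 - q) := by
    intro N
    have h1 : HasSum (fun n : ℕ => q ^ n) (1 - q)⁻¹ := hasSum_geometric_of_lt_one hq0 hq
    rw [one_div]
    exact sum_le_hasSum _ (fun n _ => pow_nonneg hq0 n) h1
  have hpart : ∀ N, Wn (∑ n ∈ Finset.range N, (-e) ^ n) (1 / (1 - q)) := fun N =>
    wn_mono (wn_sum _ _ (fun n => wn_pow hne n) N) (hgeo N)
  have hmul : (1 + e) * g = 1 := by
    have h1 := mul_neg_geom_series (-e) hnorm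
    rw [sub_neg_eq_add] at h1
    exact h1
  refine ⟨g, hmul, wn_closed _ _ _ hpart hlim, ?_⟩
  have h2 : g - 1 = (-e) * g := by
    have : g + e * g = 1 := by
      rw [← hmul]
      ring
    linear_combination this
  rw [h2]
  have h3 := wn_mul _ _ _ _ hne (wn_closed _ _ _ hpart hlim)
  have h4 : q * (1 / (1 - q)) = q / (1 - q) := by ring
  rw [h4] at h3
  exact h3

theorem t_WAL : S_WAL := by
  intro d
  exact ⟨wn_const, wn_smul, wn_add, wn_mul, fun f β h k => (f.norm_coe_le_norm k).trans (wn_norm h),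
    wn_inv, wn_closed⟩

end

end Pool.Agent.Run7.h888.SD
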